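import Pool.Agent.H55.G4.Snd

set_option autoImplicit false

namespace Pool.Agent.H55.G4

open Pool.Agent.H72.G4

variable {V : Type*}

theorem exists_mask (N : ℕ) (P : ℕ → Prop) :
    ∃ a, a < 2 ^ N ∧ ∀ x, a.testBit x = true ↔ (x < N ∧ P x) := by
  classical
  induction N with
  | zero => exact ⟨0, by norm_num, fun x => by simp⟩
  | succ N ih =>
    obtain ⟨a, ha, h⟩ := ih
    by_cases hP : P N
    · refine ⟨a ||| 2 ^ N, Nat.or_lt_two_pow (ha.trans (Nat.pow_lt_pow_right (by norm_num)
        (by omega))) (Nat.pow_lt_pow_right (by norm_num) (by omega)), fun x => ?_⟩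
      rw [tb_or ha, h x]
      constructor
      · rintro (⟨g1, g2⟩ | rfl)
        · exact ⟨by omega, g2⟩
        · exact ⟨by omega, hP⟩
      · rintro ⟨g1, g2⟩
        rcases Nat.lt_succ_iff_lt_or_eq.1 g1 with g | g
        · exact Or.inl ⟨g, g2⟩
        · exact Or.inr g
    · refine ⟨a, ha.trans (Nat.pow_lt_pow_right (by norm_num) (by omega)), fun x => ?_⟩
      rw [h x]
      constructor
      · rintro ⟨g1, g2⟩
        exact ⟨by omega, g2⟩
      · rintro ⟨g1, g2⟩
        rcases Nat.lt_succ_iff_lt_or_eq.1 g1 with g | rfl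
        · exact ⟨g, g2⟩
        · exact absurd g2 hP

theorem step_all {n : ℕ → V} {N : ℕ} {r : V → V → Prop} {c : List ℕ} (hr : STO r)
    (h : Rp n N r c) (hi : ∀ x y, x < N + 1 → y < N + 1 → n x = n y → x = y) :
    ∃ a ∈ c, (∀ x, x < N → (r (n x) (n N) ↔ a.testBit x = true)) ∧
      (∀ x, a.testBit x = true → x < N) ∧ Rp n (N + 1) r (ins1 (2 ^ N) a c) := by
  obtain ⟨a, ha, hm⟩ := exists_mask N (fun x => r (n x) (n N))
  have hac : a ∈ c := by
    refine h.full a ha fun x y hx hy g1 g2 => ?_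
    exact (hm x).2 ⟨hx, hr.tr _ _ _ g2 ((hm y).1 g1).2⟩
  have g1 : ∀ x, x < N → (r (n x) (n N) ↔ a.testBit x = true) := fun x hx => by
    rw [hm x]
    exact ⟨fun g => ⟨hx, g⟩, fun g => g.2⟩
  refine ⟨a, hac, g1, fun x hx => ((hm x).1 hx).1, h.ins hr hr hac (fun x y _ _ => Iff.rfl) g1 ?_⟩
  intro x hx
  rw [← g1 x hx]
  have hne : n x ≠ n N := fun e => by
    have := hi x N (by omega) (by omega) e
    omega
  exact ((hr.not hne)).symm

theorem chkA_sound (n : ℕ → V) (e : List St) (l : List (ℕ × ℕ × ℕ × ℕ)) : ∀ (N : ℕ)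
    (c1 c2 c3 : List ℕ) (Q : Fin 3 → V → V → Prop), (∀ i, STO (Q i)) → Rp n N (Q 0) c1 →
    Rp n N (Q 1) c2 → Rp n N (Q 2) c3 →
    (∀ x y, x < N + l.length + e.length → y < N + l.length + e.length → n x = n y → x = y) →
    WF (N + l.length) e → Pre n N l Q → chkA N l e c1 c2 c3 = true →
    ∃ Q' : Fin 3 → V → V → Prop, (∀ i, STO (Q' i)) ∧
      (∀ i x y, (∀ k, N + l.length ≤ k → k < N + l.length + e.length → x ≠ n k ∧ y ≠ n k) →
        (Q' i x y ↔ Q i x y)) ∧ Post n (N + l.length) e Q' := by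
  induction l with
  | nil =>
    intro N c1 c2 c3 Q hQ h1 h2 h3 hi hw _ hc
    exact chkE_sound n e N c1 c2 c3 Q hQ h1 h2 h3 hi hw hc
  | cons s l ih =>
    intro N c1 c2 c3 Q hQ h1 h2 h3 hi hw hp hc
    obtain ⟨I, O, U, W⟩ := s
    obtain ⟨pI, pO, pU, pW, hp⟩ := hp
    have hlen : ((I, O, U, W) :: l).length = l.length + 1 := rfl
    have e0 : N + ((I, O, U, W) :: l).length = N + 1 + l.length := by rw [hlen]; omega
    rw [e0] at hi hw ⊢
    have hi1 : ∀ x y, x < N + 1 → y < N + 1 → n x = n y → x = y := fun x y hx hy =>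
      hi x y (by omega) (by omega)
    obtain ⟨a, ha, a1, a2, a3⟩ := step_all (hQ 0) h1 hi1
    obtain ⟨b, hb, b1, b2, b3⟩ := step_all (hQ 1) h2 hi1
    obtain ⟨c, hcc, d1, d2, d3⟩ := step_all (hQ 2) h3 hi1
    unfold chkA at hc
    have hne : ∀ x, x < N → n x ≠ n N := fun x hx e => by
      have := hi1 x N (by omega) (by omega) e
      omega
    have pp := pre2_of I O U W a b c (by
      intro x
      refine ⟨fun g => ?_, fun g => ?_, fun g => ?_, fun g => ?_⟩
      · obtain ⟨hx, g⟩ := pI x g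
        exact (ex_of_e2 hQ (hne x hx) (a1 x hx) (b1 x hx) (d1 x hx)).1.2 g
      · obtain ⟨hx, g⟩ := pO x g
        exact (ex_of_e2 hQ (hne x hx) (a1 x hx) (b1 x hx) (d1 x hx)).2.2 g
      · obtain ⟨hx, i, g⟩ := pU x g
        have hcs : ∀ i : Fin 3, i = 0 ∨ i = 1 ∨ i = 2 := by decide
        rcases hcs i with rfl | rfl | rfl
        · rw [(a1 x hx).1 g]
          rfl
        · rw [(b1 x hx).1 g]
          simp
        · rw [(d1 x hx).1 g]
          simp
      · obtain ⟨hx, i, g⟩ := pW x g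
        have g' : ¬ Q i (n x) (n N) := (hQ i).asymm g
        have hcs : ∀ i : Fin 3, i = 0 ∨ i = 1 ∨ i = 2 := by decide
        rcases hcs i with rfl | rfl | rfl
        · rw [a1 x hx, Bool.not_eq_true] at g'
          simp [g']
        · rw [b1 x hx, Bool.not_eq_true] at g'
          simp [g']
        · rw [d1 x hx, Bool.not_eq_true] at g'
          simp [g'])
    rw [List.all_eq_true] at hc
    have hc := hc a ha
    rw [List.all_eq_true] at hc
    have hc := hc b hb
    rw [pp.1, Bool.not_true, Bool.false_or, List.all_eq_true] at hc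
    have hc := hc c hcc
    rw [pp.2, Bool.not_true, Bool.false_or] at hc
    exact ih (N + 1) _ _ _ Q hQ a3 b3 d3 hi hw hp hc

theorem Rp.zero (n : ℕ → V) (r : V → V → Prop) : Rp n 0 r [0] := by
  constructor
  · intro m hm
    rw [List.mem_singleton] at hm
    subst hm
    norm_num
  · intro x y hx
    omega
  · intro m hm _
    rw [List.mem_singleton]
    have : (2 : ℕ) ^ 0 = 1 := rfl
    omega

/-- **Local extension**: if the check succeeds, every triple of orders with the required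
properties on the survivors can be changed at the new vertices so that the new arcs are exact. -/
theorem conf (s : List (ℕ × ℕ × ℕ × ℕ)) (e : List St) (h : chk s e = true) (n : ℕ → V)
    (hi : ∀ x y, x < s.length + e.length → y < s.length + e.length → n x = n y → x = y)
    (hw : WF s.length e) (Q : Fin 3 → V → V → Prop) (hQ : ∀ i, STO (Q i)) (hp : Pre n 0 s Q) :
    ∃ Q' : Fin 3 → V → V → Prop, (∀ i, STO (Q' i)) ∧
      (∀ i x y, (∀ k, s.length ≤ k → k < s.length + e.length → x ≠ n k ∧ y ≠ n k) →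
        (Q' i x y ↔ Q i x y)) ∧ Post n s.length e Q' := by
  have := chkA_sound n e s 0 [0] [0] [0] Q hQ (Rp.zero n _) (Rp.zero n _) (Rp.zero n _)
    (by rw [Nat.zero_add]; exact hi) (by rw [Nat.zero_add]; exact hw) hp h
  rw [Nat.zero_add] at this
  exact this

end Pool.Agent.H55.G4
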