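import Pool.Agent.H72.G4.Model

/-!
# Local extension of exact triples of orders: a finite check

A chain of masks (natural numbers, bit `x` = the named vertex `x`) represents a strict total order
on the named vertices: the masks are its lower sets.  `chkA` runs over all positions of the
survivors, `chkE` searches positions for the new vertices.
-/

set_option autoImplicit false

namespace Pool.Agent.H55.G4

open Pool.Agent.H72.G4

/-- insert the named vertex of bit `bt` above the lower set `a` -/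
def ins1 (bt a : ℕ) (c : List ℕ) : List ℕ :=
  (c.filter fun m => Nat.beq (m &&& a) m) ++
    (c.filter fun m => Nat.beq (m &&& a) a).map fun m => m ||| bt

/-- test for the first two orders -/
def pre2 (I O a b : ℕ) : Bool := Nat.beq (I &&& (a ||| b)) I && Nat.beq (O &&& (a &&& b)) 0

/-- test for the third order -/
def pre3 (I O U W a b c : ℕ) : Bool :=
  Nat.beq (c &&& I) (I ^^^ (I &&& (a &&& b))) && Nat.beq (c &&& O) (O ^^^ (O &&& (a ||| b))) &&
    Nat.beq (U &&& ((a ||| b) ||| c)) U && Nat.beq (W &&& ((a &&& b) &&& c)) 0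

/-- new vertices: `free I O` = in-neighbours `I`, out-neighbours `O` among the vertices placed;
`twin b f` = a copy of `b` next to it, `f = true`: arc to `b`, `f = false`: arc from `b` -/
inductive St where
  | free (I O : ℕ) : St
  | twin (b : ℕ) (f : Bool) : St

/-- search for the new vertices, the next one has index `N` -/
def chkE : ℕ → List St → List ℕ → List ℕ → List ℕ → Bool
  | _, [], _, _, _ => true
  | N, St.free I O :: l, c1, c2, c3 =>
    c1.any fun a => c2.any fun b => pre2 I O a b && c3.any fun c => pre3 I O 0 0 a b c &&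
      chkE (N + 1) l (ins1 (2 ^ N) a c1) (ins1 (2 ^ N) b c2) (ins1 (2 ^ N) c c3)
  | N, St.twin t f :: l, c1, c2, c3 =>
    c1.any fun a => (!(a.testBit t) && c1.any fun m => Nat.beq m (a ||| 2 ^ t)) &&
      c2.any fun b => (!(b.testBit t) && c2.any fun m => Nat.beq m (b ||| 2 ^ t)) &&
      c3.any fun c => (!(c.testBit t) && c3.any fun m => Nat.beq m (c ||| 2 ^ t)) &&
      (cond f
        (chkE (N + 1) l (ins1 (2 ^ N) (a ||| 2 ^ t) c1) (ins1 (2 ^ N) b c2) (ins1 (2 ^ N) c c3) ||
          chkE (N + 1) l (ins1 (2 ^ N) a c1) (ins1 (2 ^ N) (b ||| 2 ^ t) c2) (ins1 (2 ^ N) c c3) ||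
          chkE (N + 1) l (ins1 (2 ^ N) a c1) (ins1 (2 ^ N) b c2) (ins1 (2 ^ N) (c ||| 2 ^ t) c3))
        (chkE (N + 1) l (ins1 (2 ^ N) a c1) (ins1 (2 ^ N) (b ||| 2 ^ t) c2)
            (ins1 (2 ^ N) (c ||| 2 ^ t) c3) ||
          chkE (N + 1) l (ins1 (2 ^ N) (a ||| 2 ^ t) c1) (ins1 (2 ^ N) b c2)
            (ins1 (2 ^ N) (c ||| 2 ^ t) c3) ||
          chkE (N + 1) l (ins1 (2 ^ N) (a ||| 2 ^ t) c1) (ins1 (2 ^ N) (b ||| 2 ^ t) c2)
            (ins1 (2 ^ N) c c3)))

/-- all positions of the survivors: `(I, O, U, W)` = in-neighbours, out-neighbours, starts of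
directed paths to the next survivor, ends of directed paths from it -/
def chkA : ℕ → List (ℕ × ℕ × ℕ × ℕ) → List St → List ℕ → List ℕ → List ℕ → Bool
  | N, [], e, c1, c2, c3 => chkE N e c1 c2 c3
  | N, (I, O, U, W) :: l, e, c1, c2, c3 =>
    c1.all fun a => c2.all fun b => !(pre2 I O a b) || c3.all fun c => !(pre3 I O U W a b c) ||
      chkA (N + 1) l e (ins1 (2 ^ N) a c1) (ins1 (2 ^ N) b c2) (ins1 (2 ^ N) c c3)

/-- the whole check -/
def chk (s : List (ℕ × ℕ × ℕ × ℕ)) (e : List St) : Bool := chkA 0 s e [0] [0] [0]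

section semantics

variable {V : Type*}

/-- the chain `c` represents the order `r` on the named vertices `n 0, .., n (N - 1)` -/
structure Rp (n : ℕ → V) (N : ℕ) (r : V → V → Prop) (c : List ℕ) : Prop where
  lt : ∀ m ∈ c, m < 2 ^ N
  rep : ∀ x y, x < N → y < N → x ≠ y → (r (n x) (n y) ↔ ∃ m ∈ c, m.testBit x ∧ ¬ m.testBit y)
  full : ∀ m, m < 2 ^ N →
    (∀ x y, x < N → y < N → m.testBit y → r (n x) (n y) → m.testBit x) → m ∈ c

theorem Rp.down {n : ℕ → V} {N : ℕ} {r : V → V → Prop} {c : List ℕ} (hr : STO r)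
    (h : Rp n N r c) (m : ℕ) (hm : m ∈ c) (x y : ℕ) (hx : x < N) (hy : y < N)
    (h1 : m.testBit y) (h2 : r (n x) (n y)) : m.testBit x := by
  by_contra h3
  have hne : y ≠ x := by rintro rfl; exact h3 h1
  exact hr.asymm ((h.rep y x hy hx hne).2 ⟨m, hm, h1, h3⟩) h2

theorem tb_lt {m N x : ℕ} (h : m < 2 ^ N) (hx : m.testBit x = true) : x < N := by
  by_contra hc
  have h1 : 2 ^ x ≤ m := Nat.ge_two_pow_of_testBit hx
  have h2 : 2 ^ N ≤ 2 ^ x := Nat.pow_le_pow_right (by norm_num) (by omega)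
  omega

end semantics

end Pool.Agent.H55.G4
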