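import Pool.Agent.H55.G4.Conf

set_option autoImplicit false

namespace Pool.Agent.H55.G4

open Pool.Agent.H72.G4

variable {V : Type*}

theorem nb {x y : ℕ} : Nat.beq x y = true ↔ x = y := by
  constructor
  · exact Nat.eq_of_beq_eq_true
  · rintro rfl
    exact Nat.beq_refl x

/-- exactly two of three -/
def e2 (p q r : Bool) : Bool := (p && q && !r) || (p && !q && r) || (!p && q && r)
/-- exactly one of three -/
def e1 (p q r : Bool) : Bool := (p && !q && !r) || (!p && q && !r) || (!p && !q && r)

theorem pre2_of (I O U W a b c : ℕ)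
    (h : ∀ x, (I.testBit x → e2 (a.testBit x) (b.testBit x) (c.testBit x)) ∧
      (O.testBit x → e1 (a.testBit x) (b.testBit x) (c.testBit x)) ∧
      (U.testBit x → (a.testBit x || b.testBit x || c.testBit x)) ∧
      (W.testBit x → !(a.testBit x && b.testBit x && c.testBit x))) :
    pre2 I O a b = true ∧ pre3 I O U W a b c = true := by
  unfold pre2 pre3
  simp only [Bool.and_eq_true, nb]
  refine ⟨⟨?_, ?_⟩, ⟨⟨⟨?_, ?_⟩, ?_⟩, ?_⟩⟩ <;> refine Nat.eq_of_testBit_eq fun x => ?_ <;>
    obtain ⟨h1, h2, h3, h4⟩ := h x <;>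
    simp only [Nat.testBit_and, Nat.testBit_or, Nat.testBit_xor, Nat.zero_testBit] <;>
    revert h1 h2 h3 h4 <;>
    cases I.testBit x <;> cases O.testBit x <;> cases U.testBit x <;> cases W.testBit x <;>
    cases a.testBit x <;> cases b.testBit x <;> cases c.testBit x <;> simp [e1, e2]

theorem of_pre (I O a b c : ℕ) (h1 : pre2 I O a b = true) (h2 : pre3 I O 0 0 a b c = true) (x : ℕ) :
    (I.testBit x → e2 (a.testBit x) (b.testBit x) (c.testBit x)) ∧
      (O.testBit x → e1 (a.testBit x) (b.testBit x) (c.testBit x)) := by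
  unfold pre2 at h1
  unfold pre3 at h2
  simp only [Bool.and_eq_true, nb] at h1 h2
  obtain ⟨h3, h4⟩ := h1
  obtain ⟨⟨⟨h5, h6⟩, -⟩, -⟩ := h2
  have g3 := congrArg (fun m => Nat.testBit m x) h3
  have g4 := congrArg (fun m => Nat.testBit m x) h4
  have g5 := congrArg (fun m => Nat.testBit m x) h5
  have g6 := congrArg (fun m => Nat.testBit m x) h6
  simp only [Nat.testBit_and, Nat.testBit_or, Nat.testBit_xor, Nat.zero_testBit] at g3 g4 g5 g6
  revert g3 g4 g5 g6
  cases I.testBit x <;> cases O.testBit x <;>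
    cases a.testBit x <;> cases b.testBit x <;> cases c.testBit x <;> simp [e1, e2]

theorem mem_ins1 {bt a m : ℕ} {c : List ℕ} : m ∈ ins1 bt a c ↔
    (m ∈ c ∧ m &&& a = m) ∨ ∃ m' ∈ c, m' &&& a = a ∧ m = m' ||| bt := by
  unfold ins1
  simp only [List.mem_append, List.mem_filter, List.mem_map, nb]
  constructor
  · rintro (h | ⟨m', ⟨h1, h2⟩, h3⟩)
    · exact Or.inl h
    · exact Or.inr ⟨m', h1, h2, h3.symm⟩
  · rintro (h | ⟨m', h1, h2, h3⟩)
    · exact Or.inl h
    · exact Or.inr ⟨m', ⟨h1, h2⟩, h3.symm⟩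

theorem sub_iff {m a : ℕ} : m &&& a = m ↔ ∀ x, m.testBit x → a.testBit x := by
  constructor
  · intro h x hx
    have := congrArg (fun k => Nat.testBit k x) h
    simp only [Nat.testBit_and, hx, Bool.true_and] at this
    exact this
  · intro h
    refine Nat.eq_of_testBit_eq fun x => ?_
    have := h x
    rw [Nat.testBit_and]
    revert this
    cases m.testBit x <;> cases a.testBit x <;> simp

theorem sup_iff {m a : ℕ} : m &&& a = a ↔ ∀ x, a.testBit x → m.testBit x := by
  rw [Nat.land_comm]
  exact sub_iff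

theorem tb_or {m N x : ℕ} (hm : m < 2 ^ N) :
    (m ||| 2 ^ N).testBit x = true ↔ (m.testBit x = true ∨ x = N) := by
  rw [Nat.testBit_or, Nat.testBit_two_pow]
  simp only [Bool.or_eq_true, decide_eq_true_eq]
  constructor
  · rintro (h | h)
    · exact Or.inl h
    · exact Or.inr h.symm
  · rintro (h | h)
    · exact Or.inl h
    · exact Or.inr h.symm

theorem tb_N {m N : ℕ} (hm : m < 2 ^ N) : ¬ m.testBit N = true := fun h => by
  have := tb_lt hm h
  omega

/-- inserting a named vertex -/
theorem Rp.ins {n : ℕ → V} {N : ℕ} {r t : V → V → Prop} {c : List ℕ} (hr : STO r) (ht : STO t)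
    (h : Rp n N r c) {a : ℕ} (ha : a ∈ c)
    (h0 : ∀ x y, x < N → y < N → (t (n x) (n y) ↔ r (n x) (n y)))
    (h1 : ∀ x, x < N → (t (n x) (n N) ↔ a.testBit x))
    (h2 : ∀ x, x < N → (t (n N) (n x) ↔ ¬ a.testBit x)) :
    Rp n (N + 1) t (ins1 (2 ^ N) a c) := by
  have haN := h.lt a ha
  have hcmp : ∀ m ∈ c, m &&& a = m ∨ m &&& a = a := by
    intro m hm
    by_contra hc
    push Not at hc
    obtain ⟨hc1, hc2⟩ := hc
    rw [Ne, sub_iff] at hc1
    rw [Ne, sup_iff] at hc2
    push Not at hc1 hc2
    obtain ⟨x, hx1, hx2⟩ := hc1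
    obtain ⟨y, hy1, hy2⟩ := hc2
    have hx := tb_lt (h.lt m hm) hx1
    have hy := tb_lt haN hy1
    have hne : x ≠ y := by rintro rfl; exact hy2 hx1
    have g1 := (h.rep x y hx hy hne).2 ⟨m, hm, hx1, hy2⟩
    have g2 := (h.rep y x hy hx hne.symm).2 ⟨a, ha, hy1, hx2⟩
    exact hr.asymm g1 g2
  constructor
  · intro m hm
    rw [mem_ins1] at hm
    rcases hm with ⟨hm, -⟩ | ⟨m', hm, -, rfl⟩
    · exact (h.lt m hm).trans (Nat.pow_lt_pow_right (by norm_num) (by omega))
    · exact Nat.or_lt_two_pow ((h.lt m' hm).trans (Nat.pow_lt_pow_right (by norm_num) (by omega)))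
        (Nat.pow_lt_pow_right (by norm_num) (by omega))
  · intro x y hx hy hxy
    rcases Nat.lt_succ_iff_lt_or_eq.1 hx with hx | rfl
    · rcases Nat.lt_succ_iff_lt_or_eq.1 hy with hy | rfl
      · rw [h0 x y hx hy, h.rep x y hx hy hxy]
        constructor
        · rintro ⟨m, hm, g1, g2⟩
          rcases hcmp m hm with g | g
          · exact ⟨m, mem_ins1.2 (Or.inl ⟨hm, g⟩), g1, g2⟩
          · refine ⟨m ||| 2 ^ N, mem_ins1.2 (Or.inr ⟨m, hm, g, rfl⟩), ?_, ?_⟩
            · exact (tb_or (h.lt m hm)).2 (Or.inl g1)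
            · rw [tb_or (h.lt m hm)]
              push Not
              exact ⟨g2, by omega⟩
        · rintro ⟨m, hm, g1, g2⟩
          rcases mem_ins1.1 hm with ⟨hm2, -⟩ | ⟨m', hm2, -, rfl⟩
          · exact ⟨m, hm2, g1, g2⟩
          · rw [tb_or (h.lt m' hm2)] at g1 g2
            push Not at g2
            exact ⟨m', hm2, g1.resolve_right (by omega), g2.1⟩
      · rw [h1 x hx]
        constructor
        · intro g
          refine ⟨a, mem_ins1.2 (Or.inl ⟨ha, Nat.and_self a⟩), g, tb_N haN⟩
        · rintro ⟨m, hm, g1, g2⟩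
          rcases mem_ins1.1 hm with ⟨hm2, g3⟩ | ⟨m', hm2, -, rfl⟩
          · exact sub_iff.1 g3 x g1
          · exact absurd ((tb_or (h.lt m' hm2)).2 (Or.inr rfl)) g2
    · rcases Nat.lt_succ_iff_lt_or_eq.1 hy with hy | rfl
      · rw [h2 y hy]
        constructor
        · intro g
          refine ⟨a ||| 2 ^ x, mem_ins1.2 (Or.inr ⟨a, ha, Nat.and_self a, rfl⟩),
            (tb_or haN).2 (Or.inr rfl), ?_⟩
          rw [tb_or haN]
          push Not
          exact ⟨g, by omega⟩
        · rintro ⟨m, hm, g1, g2⟩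
          rcases mem_ins1.1 hm with ⟨hm2, g3⟩ | ⟨m', hm2, g3, rfl⟩
          · exact absurd g1 (tb_N (h.lt m hm2))
          · rw [tb_or (h.lt m' hm2)] at g2
            push Not at g2
            exact fun g => g2.1 (sup_iff.1 g3 y g)
      · exact absurd rfl hxy
  · intro m hm hd
    rw [mem_ins1]
    have key : ∀ k : ℕ, (∀ x, N ≤ x → k.testBit x = false) → k < 2 ^ N := fun k hk =>
      Nat.lt_pow_two_of_testBit k hk
    have big : ∀ x, N < x → m.testBit x = false := by
      intro x hx
      rw [Bool.eq_false_iff]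
      intro hc
      have := tb_lt hm hc
      omega
    by_cases hN : m.testBit N = true
    · right
      have hb : ∀ x, (m ^^^ 2 ^ N).testBit x = (m.testBit x && !decide (x = N)) := by
        intro x
        rw [Nat.testBit_xor, Nat.testBit_two_pow]
        by_cases hx : x = N
        · subst hx
          simp [hN]
        · have hx' : ¬ N = x := fun e => hx e.symm
          simp [hx, hx']
      refine ⟨m ^^^ 2 ^ N, ?_, ?_, ?_⟩
      · refine h.full _ (key _ fun x hx => ?_) fun x y hx hy g1 g2 => ?_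
        · rw [hb]
          rcases Nat.lt_or_eq_of_le hx with hx' | rfl
          · simp [big x hx']
          · simp
        · rw [hb] at g1 ⊢
          simp only [Bool.and_eq_true, Bool.not_eq_true', decide_eq_false_iff_not] at g1 ⊢
          exact ⟨hd x y (by omega) (by omega) g1.1 ((h0 x y hx hy).2 g2), by omega⟩
      · rw [sup_iff]
        intro x hx
        have hxN := tb_lt haN hx
        rw [hb]
        simp only [Bool.and_eq_true, Bool.not_eq_true', decide_eq_false_iff_not]
        exact ⟨hd x N (by omega) (by omega) hN ((h1 x hxN).2 hx), by omega⟩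
      · refine Nat.eq_of_testBit_eq fun x => ?_
        rw [Nat.testBit_or, hb, Nat.testBit_two_pow]
        by_cases hx : x = N
        · subst hx
          simp [hN]
        · have hx' : ¬ N = x := fun e => hx e.symm
          simp [hx, hx']
    · left
      have hm' : m < 2 ^ N := by
        refine key m fun x hx => ?_
        rcases Nat.lt_or_eq_of_le hx with hx' | rfl
        · exact big x hx'
        · exact Bool.eq_false_iff.2 hN
      refine ⟨h.full m hm' fun x y hx hy g1 g2 =>
        hd x y (by omega) (by omega) g1 ((h0 x y hx hy).2 g2), ?_⟩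
      rw [sub_iff]
      intro x hx
      have hxN := tb_lt hm' hx
      by_contra hc
      exact hN (hd N x (by omega) (by omega) hx ((h2 x hxN).2 hc))

end Pool.Agent.H55.G4
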