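import Pool.Agent.H55.G4.Rep

set_option autoImplicit false

namespace Pool.Agent.H55.G4

open Pool.Agent.H72.G4

variable {V : Type*}

/-- the result of the insertion of the new vertices, `N` = index of the next new vertex -/
def Post (n : ℕ → V) : ℕ → List St → (Fin 3 → V → V → Prop) → Prop
  | _, [], _ => True
  | N, St.free I O :: l, Q =>
    (∀ x, x < N → I.testBit x = true → Ex Q (n x) (n N)) ∧
      (∀ x, x < N → O.testBit x = true → Ex Q (n N) (n x)) ∧ Post n (N + 1) l Q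
  | N, St.twin b f :: l, Q =>
    (cond f (Ex Q (n N) (n b)) (Ex Q (n b) (n N))) ∧
      (∀ i z, z ≠ n b → (∀ k, N ≤ k → k < N + 1 + l.length → z ≠ n k) →
        (Q i z (n N) ↔ Q i z (n b)) ∧ (Q i (n N) z ↔ Q i (n b) z)) ∧ Post n (N + 1) l Q

/-- twins are twins of vertices already placed -/
def WF : ℕ → List St → Prop
  | _, [] => True
  | N, St.free _ _ :: l => WF (N + 1) l
  | N, St.twin b _ :: l => b < N ∧ WF (N + 1) l

/-- what has to be known on the survivors -/
def Pre (n : ℕ → V) : ℕ → List (ℕ × ℕ × ℕ × ℕ) → (Fin 3 → V → V → Prop) → Prop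
  | _, [], _ => True
  | N, (I, O, U, W) :: l, Q =>
    (∀ x, I.testBit x = true → x < N ∧ Ex Q (n x) (n N)) ∧
      (∀ x, O.testBit x = true → x < N ∧ Ex Q (n N) (n x)) ∧
      (∀ x, U.testBit x = true → x < N ∧ ∃ i, Q i (n x) (n N)) ∧
      (∀ x, W.testBit x = true → x < N ∧ ∃ i, Q i (n N) (n x)) ∧ Pre n (N + 1) l Q

theorem step_free {n : ℕ → V} {N : ℕ} {r : V → V → Prop} {c : List ℕ} (hr : STO r)
    (h : Rp n N r c) {a : ℕ} (ha : a ∈ c)
    (hi : ∀ x y, x < N + 1 → y < N + 1 → n x = n y → x = y) :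
    ∃ t : V → V → Prop, STO t ∧ (∀ x y, x ≠ n N → y ≠ n N → (t x y ↔ r x y)) ∧
      (∀ x, x < N → (t (n x) (n N) ↔ a.testBit x = true)) ∧
      (∀ x, x < N → (t (n N) (n x) ↔ ¬ a.testBit x = true)) ∧
      Rp n (N + 1) t (ins1 (2 ^ N) a c) := by
  have hne : ∀ x, x < N → n x ≠ n N := fun x hx e => by
    have := hi x N (by omega) (by omega) e
    omega
  obtain ⟨t, ht, h1, h2, h3⟩ := insert_at hr (n N)
    (fun z => ∃ x, x < N ∧ a.testBit x = true ∧ (z = n x ∨ r z (n x))) (by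
      rintro x y - - ⟨k, hk, hk2, rfl | hk3⟩ hxy
      · exact ⟨k, hk, hk2, Or.inr hxy⟩
      · exact ⟨k, hk, hk2, Or.inr (hr.tr _ _ _ hxy hk3)⟩)
  have key : ∀ x, x < N → ((∃ k, k < N ∧ a.testBit k = true ∧ (n x = n k ∨ r (n x) (n k))) ↔
      a.testBit x = true) := by
    intro x hx
    constructor
    · rintro ⟨k, hk, hk2, hk3 | hk3⟩
      · rw [hi x k (by omega) (by omega) hk3]
        exact hk2
      · exact h.down hr a ha x k hx hk hk2 hk3
    · exact fun g => ⟨x, hx, g, Or.inl rfl⟩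
  have g1 : ∀ x, x < N → (t (n x) (n N) ↔ a.testBit x = true) := fun x hx =>
    (h2 _ (hne x hx)).trans (key x hx)
  have g2 : ∀ x, x < N → (t (n N) (n x) ↔ ¬ a.testBit x = true) := fun x hx =>
    (h3 _ (hne x hx)).trans (not_congr (key x hx))
  exact ⟨t, ht, h1, g1, g2,
    h.ins hr ht ha (fun x y hx hy => h1 _ _ (hne x hx) (hne y hy)) g1 g2⟩

theorem step_twin {n : ℕ → V} {N : ℕ} {r : V → V → Prop} {c : List ℕ} (hr : STO r)
    (h : Rp n N r c) {a b : ℕ} (ha : a ∈ c) (hb : b < N) (hab : ¬ a.testBit b = true)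
    (ha2 : a ||| 2 ^ b ∈ c) (hi : ∀ x y, x < N + 1 → y < N + 1 → n x = n y → x = y) (s : Bool) :
    ∃ t : V → V → Prop, STO t ∧ (∀ x y, x ≠ n N → y ≠ n N → (t x y ↔ r x y)) ∧
      (∀ z, z ≠ n b → z ≠ n N → (t z (n N) ↔ t z (n b)) ∧ (t (n N) z ↔ t (n b) z)) ∧
      (s = true → t (n b) (n N)) ∧ (s = false → t (n N) (n b)) ∧
      Rp n (N + 1) t (ins1 (2 ^ N) (cond s (a ||| 2 ^ b) a) c) := by
  have hne : ∀ x, x < N → n x ≠ n N := fun x hx e => by
    have := hi x N (by omega) (by omega) e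
    omega
  have hbN := hne b hb
  have k1 : ∀ x, x < N → (r (n x) (n b) ↔ a.testBit x = true) := by
    intro x hx
    constructor
    · intro g
      have hxb : x ≠ b := by rintro rfl; exact hr.irr _ g
      have g1 := h.down hr _ ha2 x b hx hb (by rw [Nat.testBit_or, Nat.testBit_two_pow]; simp) g
      rw [Nat.testBit_or, Nat.testBit_two_pow] at g1
      have hxb' : ¬ b = x := fun e => hxb e.symm
      simpa [hxb'] using g1
    · intro g
      have hxb : x ≠ b := by rintro rfl; exact hab g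
      exact (h.rep x b hx hb hxb).2 ⟨a, ha, g, hab⟩
  cases s with
  | false =>
    obtain ⟨t, ht, h1, h2, h3⟩ := insert_at hr (n N) (fun z => r z (n b))
      (fun x y _ _ hy hxy => hr.tr _ _ _ hxy hy)
    have g1 : ∀ x, x < N → (t (n x) (n N) ↔ a.testBit x = true) := fun x hx =>
      (h2 _ (hne x hx)).trans (k1 x hx)
    have g2 : ∀ x, x < N → (t (n N) (n x) ↔ ¬ a.testBit x = true) := fun x hx =>
      (h3 _ (hne x hx)).trans (not_congr (k1 x hx))
    refine ⟨t, ht, h1, ?_, fun e => absurd e (by decide), fun _ => (h3 _ hbN).2 (hr.irr _),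
      h.ins hr ht ha (fun x y hx hy => h1 _ _ (hne x hx) (hne y hy)) g1 g2⟩
    intro z hz hzN
    refine ⟨(h2 z hzN).trans (h1 z _ hzN hbN).symm, (h3 z hzN).trans ?_⟩
    rw [h1 _ _ hbN hzN]
    exact hr.not hz
  | true =>
    obtain ⟨t, ht, h1, h2, h3⟩ := insert_at hr (n N) (fun z => r z (n b) ∨ z = n b) (by
      rintro x y - - (hy | rfl) hxy
      · exact Or.inl (hr.tr _ _ _ hxy hy)
      · exact Or.inl hxy)
    have k2 : ∀ x, x < N → ((r (n x) (n b) ∨ n x = n b) ↔ (a ||| 2 ^ b).testBit x = true) := by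
      intro x hx
      rw [Nat.testBit_or, Nat.testBit_two_pow, Bool.or_eq_true, k1 x hx, decide_eq_true_eq]
      refine or_congr Iff.rfl ⟨fun e => ?_, fun e => by rw [e]⟩
      exact (hi x b (by omega) (by omega) e).symm
    have g1 : ∀ x, x < N → (t (n x) (n N) ↔ (a ||| 2 ^ b).testBit x = true) := fun x hx =>
      (h2 _ (hne x hx)).trans (k2 x hx)
    have g2 : ∀ x, x < N → (t (n N) (n x) ↔ ¬ (a ||| 2 ^ b).testBit x = true) := fun x hx =>
      (h3 _ (hne x hx)).trans (not_congr (k2 x hx))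
    refine ⟨t, ht, h1, ?_, fun _ => (h2 _ hbN).2 (Or.inr rfl), fun e => absurd e (by decide),
      h.ins hr ht ha2 (fun x y hx hy => h1 _ _ (hne x hx) (hne y hy)) g1 g2⟩
    intro z hz hzN
    constructor
    · rw [h2 z hzN, h1 z _ hzN hbN]
      exact ⟨fun g => g.resolve_right hz, Or.inl⟩
    · rw [h3 z hzN, h1 _ z hbN hzN]
      push Not
      constructor
      · intro g
        exact (hr.not hz).1 g.1
      · intro g
        exact ⟨hr.asymm g, hz⟩

theorem exists3 {P : Fin 3 → (V → V → Prop) → Prop} (h0 : ∃ t, P 0 t) (h1 : ∃ t, P 1 t)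
    (h2 : ∃ t, P 2 t) : ∃ Q : Fin 3 → V → V → Prop, ∀ i, P i (Q i) := by
  have h : ∀ i, ∃ t, P i t := by
    intro i
    match i with
    | 0 => exact h0
    | 1 => exact h1
    | 2 => exact h2
  choose Q hQ using h
  exact ⟨Q, hQ⟩

theorem ex_of_e2 {Q : Fin 3 → V → V → Prop} (hQ : ∀ i, STO (Q i)) {x y : V} (hne : x ≠ y)
    {p q r : Bool} (h0 : Q 0 x y ↔ p = true) (h1 : Q 1 x y ↔ q = true) (h2 : Q 2 x y ↔ r = true) :
    (e2 p q r = true ↔ Ex Q x y) ∧ (e1 p q r = true ↔ Ex Q y x) := by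
  have g0 : Q 0 y x ↔ ¬ p = true := by rw [← h0, (hQ 0).not hne]
  have g1 : Q 1 y x ↔ ¬ q = true := by rw [← h1, (hQ 1).not hne]
  have g2 : Q 2 y x ↔ ¬ r = true := by rw [← h2, (hQ 2).not hne]
  unfold Ex
  simp only [Fin.exists_fin_succ, Fin.forall_fin_succ, IsEmpty.exists_iff, IsEmpty.forall_iff]
  simp only [Fin.succ_zero_eq_one, Fin.succ_one_eq_two, h0, h1, h2, g0, g1, g2]
  clear h0 h1 h2 g0 g1 g2
  cases p <;> cases q <;> cases r <;> simp [e1, e2]

theorem chkE_sound (n : ℕ → V) (l : List St) : ∀ (N : ℕ) (c1 c2 c3 : List ℕ)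
    (Q : Fin 3 → V → V → Prop), (∀ i, STO (Q i)) → Rp n N (Q 0) c1 → Rp n N (Q 1) c2 →
    Rp n N (Q 2) c3 → (∀ x y, x < N + l.length → y < N + l.length → n x = n y → x = y) →
    WF N l → chkE N l c1 c2 c3 = true →
    ∃ Q' : Fin 3 → V → V → Prop, (∀ i, STO (Q' i)) ∧
      (∀ i x y, (∀ k, N ≤ k → k < N + l.length → x ≠ n k ∧ y ≠ n k) → (Q' i x y ↔ Q i x y)) ∧
      Post n N l Q' := by
  induction l with
  | nil =>
    intro N c1 c2 c3 Q hQ h1 h2 h3 hi hw hc
    exact ⟨Q, hQ, fun i x y _ => Iff.rfl, trivial⟩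
  | cons s l ih =>
    intro N c1 c2 c3 Q hQ h1 h2 h3 hi hw hc
    have hlen : (s :: l).length = l.length + 1 := rfl
    rw [hlen] at hi ⊢
    have hi1 : ∀ x y, x < N + 1 → y < N + 1 → n x = n y → x = y := fun x y hx hy =>
      hi x y (by omega) (by omega)
    have hi2 : ∀ x y, x < N + 1 + l.length → y < N + 1 + l.length → n x = n y → x = y :=
      fun x y hx hy => hi x y (by omega) (by omega)
    have hoff : ∀ k, N + 1 ≤ k → k < N + 1 + l.length → ∀ x, x < N + 1 → n x ≠ n k := by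
      intro k hk1 hk2 x hx e
      have := hi x k (by omega) (by omega) e
      omega
    cases s with
    | free I O =>
      unfold chkE at hc
      rw [List.any_eq_true] at hc
      obtain ⟨a, ha, hc⟩ := hc
      rw [List.any_eq_true] at hc
      obtain ⟨b, hb, hc⟩ := hc
      rw [Bool.and_eq_true, List.any_eq_true] at hc
      obtain ⟨hp, c, hcc, hc⟩ := hc
      rw [Bool.and_eq_true] at hc
      obtain ⟨hp3, hc⟩ := hc
      obtain ⟨R, hR⟩ := exists3 (P := fun i t => STO t ∧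
          (∀ x y, x ≠ n N → y ≠ n N → (t x y ↔ Q i x y)) ∧
          (∀ x, x < N → (t (n x) (n N) ↔ (![a, b, c] i).testBit x = true)) ∧
          (∀ x, x < N → (t (n N) (n x) ↔ ¬ (![a, b, c] i).testBit x = true)) ∧
          Rp n (N + 1) t (ins1 (2 ^ N) (![a, b, c] i) (![c1, c2, c3] i)))
        (step_free (hQ 0) h1 ha hi1) (step_free (hQ 1) h2 hb hi1) (step_free (hQ 2) h3 hcc hi1)
      obtain ⟨Q', hQ', hag, hpost⟩ := ih (N + 1) _ _ _ R (fun i => (hR i).1) (hR 0).2.2.2.2
        (hR 1).2.2.2.2 (hR 2).2.2.2.2 hi2 hw hc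
      have hex : ∀ x y, x < N + 1 → y < N + 1 → (Ex R (n x) (n y) → Ex Q' (n x) (n y)) := by
        rintro x y hx hy ⟨i, g1, g2⟩
        exact ⟨i, (hag i _ _ fun k hk1 hk2 => ⟨hoff k hk1 hk2 y hy, hoff k hk1 hk2 x hx⟩).2 g1,
          fun j hj => (hag j _ _ fun k hk1 hk2 =>
            ⟨hoff k hk1 hk2 x hx, hoff k hk1 hk2 y hy⟩).2 (g2 j hj)⟩
      refine ⟨Q', hQ', ?_, ?_, ?_, hpost⟩
      · intro i x y hxy
        rw [hag i x y fun k hk1 hk2 => hxy k (by omega) (by omega)]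
        have := hxy N le_rfl (by omega)
        exact (hR i).2.1 x y this.1 this.2
      · intro x hx hxI
        apply hex x N (by omega) (by omega)
        have hne : n x ≠ n N := fun e => by
          have := hi x N (by omega) (by omega) e
          omega
        exact (ex_of_e2 (fun i => (hR i).1) hne ((hR 0).2.2.1 x hx) ((hR 1).2.2.1 x hx)
          ((hR 2).2.2.1 x hx)).1.1 ((of_pre I O a b c hp hp3 x).1 hxI)
      · intro x hx hxO
        apply hex N x (by omega) (by omega)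
        have hne : n x ≠ n N := fun e => by
          have := hi x N (by omega) (by omega) e
          omega
        exact (ex_of_e2 (fun i => (hR i).1) hne ((hR 0).2.2.1 x hx) ((hR 1).2.2.1 x hx)
          ((hR 2).2.2.1 x hx)).2.1 ((of_pre I O a b c hp hp3 x).2 hxO)
    | twin t f =>
      obtain ⟨htN, hw⟩ := hw
      unfold chkE at hc
      rw [List.any_eq_true] at hc
      obtain ⟨a, ha, hc⟩ := hc
      rw [Bool.and_eq_true, Bool.and_eq_true, List.any_eq_true, List.any_eq_true] at hc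
      obtain ⟨⟨ha1, a', ha', ha2⟩, b, hb, hc⟩ := hc
      rw [Bool.and_eq_true, Bool.and_eq_true, List.any_eq_true, List.any_eq_true] at hc
      obtain ⟨⟨hb1, b', hb', hb2⟩, c, hcc, hc⟩ := hc
      rw [Bool.and_eq_true, Bool.and_eq_true, List.any_eq_true] at hc
      obtain ⟨⟨hc1, c', hc', hc2⟩, hc⟩ := hc
      rw [nb] at ha2 hb2 hc2
      subst ha2 hb2 hc2
      rw [Bool.not_eq_true'] at ha1 hb1 hc1
      -- a choice of sides
      have main : ∀ s : Fin 3 → Bool,
          chkE (N + 1) l (ins1 (2 ^ N) (cond (s 0) (a ||| 2 ^ t) a) c1)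
            (ins1 (2 ^ N) (cond (s 1) (b ||| 2 ^ t) b) c2)
            (ins1 (2 ^ N) (cond (s 2) (c ||| 2 ^ t) c) c3) = true →
          ∃ Q' : Fin 3 → V → V → Prop, (∀ i, STO (Q' i)) ∧
            (∀ i x y, (∀ k, N ≤ k → k < N + (l.length + 1) → x ≠ n k ∧ y ≠ n k) →
              (Q' i x y ↔ Q i x y)) ∧
            (∀ i, (s i = true → Q' i (n t) (n N)) ∧ (s i = false → Q' i (n N) (n t))) ∧
            (∀ i z, z ≠ n t → (∀ k, N ≤ k → k < N + 1 + l.length → z ≠ n k) →
              (Q' i z (n N) ↔ Q' i z (n t)) ∧ (Q' i (n N) z ↔ Q' i (n t) z)) ∧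
            Post n (N + 1) l Q' := by
        intro s hs
        obtain ⟨R, hR⟩ := exists3 (P := fun i r => STO r ∧
          (∀ x y, x ≠ n N → y ≠ n N → (r x y ↔ Q i x y)) ∧
          (∀ z, z ≠ n t → z ≠ n N → (r z (n N) ↔ r z (n t)) ∧ (r (n N) z ↔ r (n t) z)) ∧
          (s i = true → r (n t) (n N)) ∧ (s i = false → r (n N) (n t)) ∧
          Rp n (N + 1) r (ins1 (2 ^ N) (cond (s i) ((![a, b, c] i) ||| 2 ^ t) (![a, b, c] i))
            (![c1, c2, c3] i)))
          (step_twin (hQ 0) h1 ha htN (by rw [ha1]; decide) ha' hi1 (s 0))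
          (step_twin (hQ 1) h2 hb htN (by rw [hb1]; decide) hb' hi1 (s 1))
          (step_twin (hQ 2) h3 hcc htN (by rw [hc1]; decide) hc' hi1 (s 2))
        obtain ⟨Q', hQ', hag, hpost⟩ := ih (N + 1) _ _ _ R (fun i => (hR i).1) (hR 0).2.2.2.2.2
          (hR 1).2.2.2.2.2 (hR 2).2.2.2.2.2 hi2 hw hs
        refine ⟨Q', hQ', ?_, ?_, ?_, hpost⟩
        · intro i x y hxy
          rw [hag i x y fun k hk1 hk2 => hxy k (by omega) (by omega)]
          have := hxy N le_rfl (by omega)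
          exact (hR i).2.1 x y this.1 this.2
        · intro i
          refine ⟨fun g => ?_, fun g => ?_⟩
          · exact (hag i _ _ fun k hk1 hk2 =>
              ⟨hoff k hk1 hk2 t (by omega), hoff k hk1 hk2 N (by omega)⟩).2 ((hR i).2.2.2.1 g)
          · exact (hag i _ _ fun k hk1 hk2 =>
              ⟨hoff k hk1 hk2 N (by omega), hoff k hk1 hk2 t (by omega)⟩).2 ((hR i).2.2.2.2.1 g)
        · intro i z hz hzk
          have hzN := hzk N le_rfl (by omega)
          have q := (hR i).2.2.1 z hz hzN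
          have e1 := hag i z (n N) fun k hk1 hk2 =>
            ⟨hzk k (by omega) hk2, hoff k hk1 hk2 N (by omega)⟩
          have e2 := hag i z (n t) fun k hk1 hk2 =>
            ⟨hzk k (by omega) hk2, hoff k hk1 hk2 t (by omega)⟩
          have e3 := hag i (n N) z fun k hk1 hk2 =>
            ⟨hoff k hk1 hk2 N (by omega), hzk k (by omega) hk2⟩
          have e4 := hag i (n t) z fun k hk1 hk2 =>
            ⟨hoff k hk1 hk2 t (by omega), hzk k (by omega) hk2⟩
          rw [e1, e2, e3, e4]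
          exact q
      cases f with
      | true =>
        rw [cond_true, Bool.or_eq_true, Bool.or_eq_true] at hc
        have fin : ∀ k : Fin 3, (∃ Q' : Fin 3 → V → V → Prop, (∀ i, STO (Q' i)) ∧
            (∀ i x y, (∀ k, N ≤ k → k < N + (l.length + 1) → x ≠ n k ∧ y ≠ n k) →
              (Q' i x y ↔ Q i x y)) ∧
            (∀ i, (decide (i = k) = true → Q' i (n t) (n N)) ∧
              (decide (i = k) = false → Q' i (n N) (n t))) ∧
            (∀ i z, z ≠ n t → (∀ k, N ≤ k → k < N + 1 + l.length → z ≠ n k) →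
              (Q' i z (n N) ↔ Q' i z (n t)) ∧ (Q' i (n N) z ↔ Q' i (n t) z)) ∧
            Post n (N + 1) l Q') → ∃ Q' : Fin 3 → V → V → Prop, (∀ i, STO (Q' i)) ∧
            (∀ i x y, (∀ k, N ≤ k → k < N + (l.length + 1) → x ≠ n k ∧ y ≠ n k) →
              (Q' i x y ↔ Q i x y)) ∧ Post n N (St.twin t true :: l) Q' := by
          rintro k ⟨Q', g1, g2, g3, g4, g5⟩
          refine ⟨Q', g1, g2, ⟨k, (g3 k).1 (by simp), fun j hj => (g3 j).2 (by simp [hj])⟩, g4, g5⟩
        rcases hc with (hc | hc) | hc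
        · exact fin 0 (main (fun i => decide (i = 0)) hc)
        · exact fin 1 (main (fun i => decide (i = 1)) hc)
        · exact fin 2 (main (fun i => decide (i = 2)) hc)
      | false =>
        rw [cond_false, Bool.or_eq_true, Bool.or_eq_true] at hc
        have fin : ∀ k : Fin 3, (∃ Q' : Fin 3 → V → V → Prop, (∀ i, STO (Q' i)) ∧
            (∀ i x y, (∀ k, N ≤ k → k < N + (l.length + 1) → x ≠ n k ∧ y ≠ n k) →
              (Q' i x y ↔ Q i x y)) ∧
            (∀ i, ((!decide (i = k)) = true → Q' i (n t) (n N)) ∧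
              ((!decide (i = k)) = false → Q' i (n N) (n t))) ∧
            (∀ i z, z ≠ n t → (∀ k, N ≤ k → k < N + 1 + l.length → z ≠ n k) →
              (Q' i z (n N) ↔ Q' i z (n t)) ∧ (Q' i (n N) z ↔ Q' i (n t) z)) ∧
            Post n (N + 1) l Q') → ∃ Q' : Fin 3 → V → V → Prop, (∀ i, STO (Q' i)) ∧
            (∀ i x y, (∀ k, N ≤ k → k < N + (l.length + 1) → x ≠ n k ∧ y ≠ n k) →
              (Q' i x y ↔ Q i x y)) ∧ Post n N (St.twin t false :: l) Q' := by
          rintro k ⟨Q', g1, g2, g3, g4, g5⟩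
          refine ⟨Q', g1, g2, ⟨k, (g3 k).2 (by simp), fun j hj => (g3 j).1 (by simp [hj])⟩, g4, g5⟩
        rcases hc with (hc | hc) | hc
        · exact fin 0 (main (fun i => !decide (i = 0)) hc)
        · exact fin 1 (main (fun i => !decide (i = 1)) hc)
        · exact fin 2 (main (fun i => !decide (i = 2)) hc)

end Pool.Agent.H55.G4
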