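import Pool.Agent.H55.G4.Ext

/-!
# Kernel checks for the path contractions

Word of corners at `u`, spokes `x0, x1, ..`, corner `j` = the quad `x_j, u, x_(j+1)`, far vertex `f`.
Index 0 = the contracted vertex `W` (named by `f`), then the other spokes in cyclic order beginning with
`x_(j+2)`; new vertices: `o` (out-spoke of the quad, arc `o > f`), `i` (in-spoke, arc `f > i`), `u`.
-/

set_option autoImplicit false

namespace Pool.Agent.H55.G4

/-- spokes iioio, ring arcs x1>x0, quads at corners [1, 2, 3, 4]; corner 4 (o = x4, i = x0), new arcs W>x2 W>x3 x2>x3; indices: 0 = W, 1 = x1, 2 = x2, 3 = x3 -/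
theorem ck_s2qqqq_4 : chk [(0, 0, 0, 0), (0, 1, 0, 0), (1, 0, 0, 0), (5, 0, 0, 0)] [St.twin 0 true, St.twin 0 false, St.free 42 20] = true := by
  decide +kernel

/-- spokes iiioo, ring arcs x1>x0 x2>x1 x3>x4, quads at corners [2, 4]; corner 4 (o = x4, i = x0), new arcs x1>x3; indices: 0 = W, 1 = x1, 2 = x2, 3 = x3 -/
theorem ck_s22q2q_4 : chk [(0, 0, 0, 0), (0, 1, 0, 0), (0, 2, 0, 0), (2, 1, 0, 0)] [St.twin 0 true, St.twin 0 false, St.free 38 24] = true := by
  decide +kernel

end Pool.Agent.H55.G4
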